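import Mathlib
import Pool.Agent.Q121.DetLB.Main

set_option autoImplicit false

/-!
# The determinant lower bound is at most a constant times hereditary partial vector discrepancy

The proof maximises the determinant over a convex hull of solutions of the vector programs and of
diagonal matrices; the inverse `N` of the maximiser defines a norm in which every point is close
to an integer point (a second order condition for a non-convex quadratic minimisation over the cube,
followed by rounding), so that `det N` is at most `C ^ k` by folding a Gaussian integral. On the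
other hand the determinant of the maximiser is small, by the Cauchy-Binet formula and Hadamard's
inequality, unless the determinant lower bound is at most a constant times `λ`.
-/

namespace Pool.Agent.Results.MP_c6e1d2_co.DetLBUpper

open Finset Matrix

/-- The determinant lower bound: the maximum of `|det A_{S,T}| ^ (1 / k)` over all `k ≥ 1` and all
`k`-element sets `S` of rows and `T` of columns (given by their increasing enumerations). -/
noncomputable def detLB {m n : ℕ} (A : Matrix (Fin m) (Fin n) ℝ) : ℝ :=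
  sSup {x : ℝ | ∃ (k : ℕ) (S : Fin k ↪o Fin m) (T : Fin k ↪o Fin n), 1 ≤ k ∧
    x = |(A.submatrix S T).det| ^ (1 / (k : ℝ))}

/-- Feasibility of `(A, S, lam)`. -/
def Feasible {m n : ℕ} (A : Matrix (Fin m) (Fin n) ℝ) (S : Finset (Fin n)) (lam : ℝ) : Prop :=
  ∃ (d : ℕ) (v : Fin n → EuclideanSpace ℝ (Fin d)),
    (∀ i, ‖∑ j ∈ S, A i j • v j‖ ^ 2 ≤ lam ^ 2) ∧
    (#S : ℝ) / 2 ≤ ∑ j, ‖v j‖ ^ 2 ∧
    (∀ j ∈ S, ‖v j‖ ^ 2 ≤ 1) ∧ ∀ j, j ∉ S → v j = 0

/-- Hereditary partial vector discrepancy: the least (infimum) `lam ≥ 0` such that `(A, S, lam)` is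
feasible for every set `S` of columns. -/
noncomputable def herpvdisc {m n : ℕ} (A : Matrix (Fin m) (Fin n) ℝ) : ℝ :=
  sInf {lam : ℝ | 0 ≤ lam ∧ ∀ S : Finset (Fin n), Feasible A S lam}

/-! ### Minors -/

lemma detLB_set_finite {m n : ℕ} (A : Matrix (Fin m) (Fin n) ℝ) :
    {x : ℝ | ∃ (k : ℕ) (S : Fin k ↪o Fin m) (T : Fin k ↪o Fin n), 1 ≤ k ∧
      x = |(A.submatrix S T).det| ^ (1 / (k : ℝ))}.Finite := by
  have h : {x : ℝ | ∃ (k : ℕ) (S : Fin k ↪o Fin m) (T : Fin k ↪o Fin n), 1 ≤ k ∧
      x = |(A.submatrix S T).det| ^ (1 / (k : ℝ))} ⊆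
      Set.range (fun p : (Σ k : Fin (m + 1), (Fin k ↪o Fin m) × (Fin k ↪o Fin n)) =>
        |(A.submatrix p.2.1 p.2.2).det| ^ (1 / ((p.1 : ℕ) : ℝ))) := by
    rintro x ⟨k, S, T, _, rfl⟩
    have hk : k ≤ m := by
      have := Fintype.card_le_of_injective S S.injective
      simpa using this
    exact ⟨⟨⟨k, by omega⟩, S, T⟩, rfl⟩
  exact (Set.finite_range _).subset h

lemma abs_det_perm {k : ℕ} (M : Matrix (Fin k) (Fin k) ℝ) (σ τ : Equiv.Perm (Fin k)) :
    |(M.submatrix σ τ).det| = |M.det| := by
  have h1 : M.submatrix σ τ = (M.submatrix σ id).submatrix id τ := rfl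
  rw [h1, Matrix.det_permute', Matrix.det_permute, abs_mul, abs_mul]
  have h2 : ∀ σ : Equiv.Perm (Fin k), |((Equiv.Perm.sign σ : ℤ) : ℝ)| = 1 := by
    intro σ
    rcases Int.units_eq_one_or (Equiv.Perm.sign σ) with h | h <;> rw [h] <;> simp
  rw [h2, h2, one_mul, one_mul]

/-- All minors are bounded by powers of the determinant lower bound. -/
lemma minor_le {m n : ℕ} (A : Matrix (Fin m) (Fin n) ℝ) (h0 : 0 ≤ detLB A) (k : ℕ)
    (f : Fin k → Fin m) (g : Fin k → Fin n) : |(A.submatrix f g).det| ≤ detLB A ^ k := by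
  rcases Nat.eq_zero_or_pos k with hk | hk
  · subst hk; simp
  by_cases hf : Function.Injective f
  · by_cases hg : Function.Injective g
    · set σ := Tuple.sort f with hσ
      set τ := Tuple.sort g with hτ
      have hfs : StrictMono (f ∘ σ) :=
        (Tuple.monotone_sort f).strictMono_of_injective (hf.comp σ.injective)
      have hgs : StrictMono (g ∘ τ) :=
        (Tuple.monotone_sort g).strictMono_of_injective (hg.comp τ.injective)
      have h1 : |(A.submatrix f g).det| = |(A.submatrix (f ∘ σ) (g ∘ τ)).det| := by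
        have := abs_det_perm (A.submatrix f g) σ τ
        rw [← this]
        rfl
      rw [h1]
      have h2 : |(A.submatrix (f ∘ σ) (g ∘ τ)).det| ^ (1 / (k : ℝ)) ≤ detLB A := by
        apply le_csSup (detLB_set_finite A).bddAbove
        exact ⟨k, OrderEmbedding.ofStrictMono _ hfs, OrderEmbedding.ofStrictMono _ hgs, hk, rfl⟩
      have h3 := pow_le_pow_left₀ (Real.rpow_nonneg (abs_nonneg _) _) h2 k
      rw [one_div, Real.rpow_inv_natCast_pow (abs_nonneg _) hk.ne'] at h3
      exact h3
    · unfold Function.Injective at hg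
      push Not at hg
      obtain ⟨i, j, h1, h2⟩ := hg
      rw [Matrix.det_zero_of_column_eq h2, abs_zero]
      · positivity
      · intro x; simp [h1]
  · unfold Function.Injective at hf
    push Not at hf
    obtain ⟨i, j, h1, h2⟩ := hf
    rw [Matrix.det_zero_of_row_eq h2, abs_zero]
    · positivity
    · funext x; simp [h1]

/-- Some value of `lam` is feasible. -/
lemma feasible_nonempty {m n : ℕ} (A : Matrix (Fin m) (Fin n) ℝ) :
    {lam : ℝ | 0 ≤ lam ∧ ∀ S : Finset (Fin n), Feasible A S lam}.Nonempty := by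
  classical
  refine ⟨∑ i, ∑ j, |A i j|, by positivity, ?_⟩
  intro S
  refine ⟨1, fun j => if j ∈ S then EuclideanSpace.single 0 1 else 0, ?_, ?_, ?_, ?_⟩
  · intro i
    apply pow_le_pow_left₀ (norm_nonneg _)
    calc ‖∑ j ∈ S, A i j • (if j ∈ S then EuclideanSpace.single (0 : Fin 1) (1 : ℝ) else 0)‖
        ≤ ∑ j ∈ S, ‖A i j • (if j ∈ S then EuclideanSpace.single (0 : Fin 1) (1 : ℝ) else 0)‖ :=
          norm_sum_le _ _
      _ ≤ ∑ j ∈ S, |A i j| := by
          apply sum_le_sum
          intro j hj
          rw [if_pos hj, norm_smul]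
          simp
      _ ≤ ∑ j, |A i j| := sum_le_sum_of_subset_of_nonneg (subset_univ _)
          (fun _ _ _ => abs_nonneg _)
      _ ≤ ∑ i, ∑ j, |A i j| := single_le_sum (f := fun i => ∑ j, |A i j|)
          (fun _ _ => by positivity) (mem_univ i)
  · have h1 : ∑ j : Fin n, ‖(if j ∈ S then EuclideanSpace.single (0 : Fin 1) (1 : ℝ) else 0)‖ ^ 2 =
        #S := by
      have : ∀ j : Fin n, ‖(if j ∈ S then EuclideanSpace.single (0 : Fin 1) (1 : ℝ) else 0)‖ ^ 2 =
          if j ∈ S then (1 : ℝ) else 0 := by
        intro j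
        split_ifs <;> simp
      simp only [this]
      rw [sum_ite_mem, univ_inter]
      simp
    rw [h1]
    have : (0 : ℝ) ≤ #S := by positivity
    linarith
  · intro j hj
    simp [hj]
  · intro j hj
    simp [hj]

/-- **Positive answer.** There is an absolute constant `C` such that the determinant lower bound of
every real matrix is at most `C` times its hereditary partial vector discrepancy. -/
theorem result : ∃ C : ℝ, 0 < C ∧ ∀ (m n : ℕ), 1 ≤ m → 1 ≤ n →
    ∀ A : Matrix (Fin m) (Fin n) ℝ, detLB A ≤ C * herpvdisc A := by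
  classical
  have hC : 0 < 4 * (√Real.pi * Real.exp (5 / 2)) ^ 2 := by
    have := Real.sqrt_pos.2 Real.pi_pos
    positivity
  refine ⟨4 * (√Real.pi * Real.exp (5 / 2)) ^ 2, hC, ?_⟩
  intro m n hm hn A
  set C := 4 * (√Real.pi * Real.exp (5 / 2)) ^ 2 with hCdef
  have hne : {x : ℝ | ∃ (k : ℕ) (S : Fin k ↪o Fin m) (T : Fin k ↪o Fin n), 1 ≤ k ∧
      x = |(A.submatrix S T).det| ^ (1 / (k : ℝ))}.Nonempty := by
    refine ⟨_, 1, Fin.castLEOrderEmb hm, Fin.castLEOrderEmb hn, le_rfl, rfl⟩
  obtain ⟨k, S0, T0, hk, hD⟩ := hne.csSup_mem (detLB_set_finite A)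
  change detLB A = _ at hD
  have h0 : 0 ≤ detLB A := by rw [hD]; positivity
  have hinf : 0 ≤ herpvdisc A := Real.sInf_nonneg (fun x hx => hx.1)
  rcases h0.eq_or_lt with hz | hpos
  · rw [← hz]; positivity
  have hkey : ∀ lam ∈ {lam : ℝ | 0 ≤ lam ∧ ∀ S : Finset (Fin n), Feasible A S lam},
      detLB A / C ≤ lam := by
    rintro lam ⟨hlam, hfeas⟩
    rw [div_le_iff₀ hC, mul_comm]
    apply Q121.DetLB.core (by omega) (A.submatrix S0 T0) (detLB A) hpos
    · rw [hD, one_div, Real.rpow_inv_natCast_pow (abs_nonneg _) (by omega)]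
    · intro l f g
      rw [Matrix.submatrix_submatrix]
      exact minor_le A h0 l _ _
    · exact hlam
    · intro S
      obtain ⟨d, v, h1, h2, h3, h4⟩ := hfeas (S.map T0.toEmbedding)
      have hzero : ∀ j, j ∉ S → v (T0 j) = 0 := by
        intro j hj
        apply h4
        rw [mem_map]
        rintro ⟨j', hj', h5⟩
        have := T0.injective h5
        exact hj (this ▸ hj')
      refine ⟨d, fun j => v (T0 j), hzero, ?_, ?_⟩
      · rw [card_map] at h2
        refine h2.trans (le_of_eq ?_)
        have h5 : ∑ j, ‖v j‖ ^ 2 = ∑ j ∈ (univ : Finset (Fin k)).map T0.toEmbedding,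
            ‖v j‖ ^ 2 := by
          symm
          apply sum_subset (subset_univ _)
          intro j _ hj
          have : v j = 0 := by
            apply h4
            intro hj'
            apply hj
            rw [mem_map] at hj' ⊢
            obtain ⟨a, _, ha⟩ := hj'
            exact ⟨a, mem_univ _, ha⟩
          rw [this]; simp
        rw [h5, sum_map]
        rfl
      · intro i
        refine le_trans (le_of_eq ?_) (h1 (S0 i))
        rw [sum_map]
        congr 2
        symm
        apply sum_subset (subset_univ _)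
        intro j _ hj
        have := hzero j hj
        change A (S0 i) (T0 j) • v (T0 j) = 0
        rw [this, smul_zero]
  have h1 : detLB A / C ≤ herpvdisc A := le_csInf (feasible_nonempty A) hkey
  rw [div_le_iff₀ hC] at h1
  linarith

end Pool.Agent.Results.MP_c6e1d2_co.DetLBUpper
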